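import Pool.Agent.H124R2.Vis.Upper

/-!
# The number of visibility graphs of simple polygons is `2 ^ Θ(n log n)`
-/

namespace Pool.Agent.Results.MP_af711c_co.Theta

open Vis124 Filter Asymptotics

/-- `log₂ N(n)` has order of magnitude exactly `n log₂ n`, where `N(n)` is the number of isomorphism
classes of visibility graphs of simple polygons with `n` vertices; the same holds if only polygons
without three collinear vertices are counted. Explicit bounds are included. -/
theorem result :
    ((fun n : ℕ => Real.logb 2 (N n)) =Θ[atTop] fun n : ℕ => (n : ℝ) * Real.logb 2 n) ∧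
    ((fun n : ℕ => Real.logb 2 (NGP n)) =Θ[atTop] fun n : ℕ => (n : ℝ) * Real.logb 2 n) ∧
    ∀ n : ℕ, 4 ≤ n → ((n : ℝ) / 3) ^ (n / 3) / 3 ^ n ≤ (NGP n : ℝ) ∧ NGP n ≤ N n ∧
      N n ≤ 2 * (16 * n ^ 3 + 2) ^ (2 * n) := by
  have hl : ∀ n : ℕ, 4 ≤ n → 0 ≤ (n : ℝ) * Real.logb 2 n := by
    intro n hn
    have : (1:ℝ) ≤ n := by exact_mod_cast (by omega : 1 ≤ n)
    exact mul_nonneg (by positivity) (Real.logb_nonneg (by norm_num) this)
  have hlogle : ∀ n : ℕ, 4 ≤ n → Real.logb 2 (NGP n) ≤ Real.logb 2 (N n) := by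
    intro n hn
    apply Real.logb_le_logb_of_le (by norm_num)
    · exact_mod_cast NGP_pos hn
    · exact_mod_cast NGP_le_N n
  refine ⟨⟨?_, ?_⟩, ⟨?_, ?_⟩, ?_⟩
  · apply IsBigO.of_bound 20
    filter_upwards [upper_bound, lower_bound, eventually_ge_atTop 4] with n h1 h2 h3
    have h4 := hl n h3
    have h5 := hlogle n h3
    rw [Real.norm_of_nonneg (by linarith), Real.norm_of_nonneg h4]
    exact h1
  · apply IsBigO.of_bound 4
    filter_upwards [lower_bound, eventually_ge_atTop 4] with n h2 h3
    have h4 := hl n h3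
    have h5 := hlogle n h3
    rw [Real.norm_of_nonneg h4, Real.norm_of_nonneg (by linarith)]
    linarith
  · apply IsBigO.of_bound 20
    filter_upwards [upper_bound, lower_bound, eventually_ge_atTop 4] with n h1 h2 h3
    have h4 := hl n h3
    have h5 := hlogle n h3
    rw [Real.norm_of_nonneg (by linarith), Real.norm_of_nonneg h4]
    exact h5.trans h1
  · apply IsBigO.of_bound 4
    filter_upwards [lower_bound, eventually_ge_atTop 4] with n h2 h3
    have h4 := hl n h3
    rw [Real.norm_of_nonneg h4, Real.norm_of_nonneg (by linarith)]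
    linarith
  · intro n hn
    refine ⟨?_, NGP_le_N n, N_upper n⟩
    rw [div_le_iff₀ (by positivity)]
    exact NGP_lower hn

end Pool.Agent.Results.MP_af711c_co.Theta
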